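import Pool.Agent.H65.CM4.Defs
import Pool.Agent.H25.HK.Defs

/-!
# The central values of the Epstein zeta functions over a totally real field: definitions

`k` is a totally real number field, `b`, `D` are vectors of real numbers indexed by the places,
`w_b = (b + √(-D)) / 2`.
-/

set_option autoImplicit false

open MeasureTheory Set Filter NumberField NumberField.InfinitePlace
open scoped Real nonZeroDivisors

namespace Pool.Agent.H61.NVK

open Pool.Agent.H65.CM4

section Base

variable {k : Type} [Field k] [NumberField k]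

/-- the lattice `a B × a` -/
def Lb (a B : Ideal (𝓞 k)) : La k := Submodule.prod (a * B) a

/-- an integral ideal in each class -/
noncomputable def cr (c : ClassGroup (𝓞 k)) : (Ideal (𝓞 k))⁰ :=
  Function.surjInv ClassGroup.mk0_surjective c

/-- the same as an ideal -/
noncomputable def ci (c : ClassGroup (𝓞 k)) : Ideal (𝓞 k) := (cr c : Ideal (𝓞 k))

variable (k) in
/-- the cut-off function -/
noncomputable def Vk (x : ℝ) : ℝ :=
  (((Real.sqrt (x / dk k) : ℝ) : ℂ) * (Kc (dg k) (1 / 2) ((x / dk k : ℝ) : ℂ) /
    gG (1 / 2) ^ dg k)).re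

variable (k) in
/-- the residue of the zeta function -/
noncomputable def kp : ℝ := dedekindZeta_residue k

open scoped Classical in
variable (k) in
/-- the volume of the fundamental domain of the units, the regulator -/
noncomputable def vR : ℝ := volume.real (Pool.Agent.H25.HK.Fd k)

/-- the regularised integral of the theta function of an ideal -/
noncomputable def RM (M : Ideal (𝓞 k)) : ℝ :=
  (∫ t in Ioi (1 : ℝ), (Pool.Agent.H25.HK.ff k (M : Pool.Agent.H25.HK.FI k) t - vR k)) +
  ∫ t in Ioc (0 : ℝ) 1, (Pool.Agent.H25.HK.ff k (M : Pool.Agent.H25.HK.FI k) t -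
    vR k / (Real.sqrt (dk k) * nm M * t))

/-- the constant of an ideal, it depends only on the class -/
noncomputable def sC (M : Ideal (𝓞 k)) : ℝ :=
  nm M * (RM M - vR k) + vR k / Real.sqrt (dk k) * Real.log (nm M)

variable (k) in
/-- the constant in the constant term -/
noncomputable def c0 : ℝ :=
  Real.log (dk k) - dg k * Real.log 2 + 2 * (∑ c : ClassGroup (𝓞 k), sC (ci c)) *
    Real.sqrt (dk k) / (classNumber k * vR k)

end Base

section Real

variable {k : Type} [Field k] [NumberField k] [IsTotallyReal k]

/-- the norm form `N (u.1 + u.2 w_b)` -/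
noncomputable def qd (b D : Pl k → ℝ) (u : V2 k) : ℝ :=
  ∏ v : Pl k, ((rv v (u.1 : k) + rv v (u.2 : k) * b v / 2) ^ 2 + D v * rv v (u.2 : k) ^ 2 / 4)

/-- the square root of the norm of `D` -/
noncomputable def sD (D : Pl k → ℝ) : ℝ := Real.sqrt (∏ v : Pl k, D v)

/-- the norm of the ideal of the vector `u` of the lattice `a (A f + O w_b)` -/
noncomputable def nf (a A f : Ideal (𝓞 k)) (b D : Pl k → ℝ) (u : V2 k) : ℝ :=
  qd b D u / (nm a ^ 2 * nm f ^ 2 * nm A)

open Classical in
/-- the central value of the Epstein zeta function of the lattice `A f + O w_b`, all classes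
of `k` together -/
noncomputable def zf (A f : Ideal (𝓞 k)) (b D : Pl k → ℝ) : ℝ :=
  ∑ c : ClassGroup (𝓞 k), ∑' u : V2 k, if u ∈ Lb (ci c) (A * f) ∧ u ∈ Fo k then
    2 * Vk k (nf (ci c) A f b D u * nm f / sD D) / Real.sqrt (nf (ci c) A f b D u) else 0

/-- the constant term of the central value -/
noncomputable def ct (A f : Ideal (𝓞 k)) (D : Pl k → ℝ) : ℝ :=
  kp k * (Real.log (sD D / (nm f * nm A)) + c0 k) / Real.sqrt (nm A)

end Real

end Pool.Agent.H61.NVK
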