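import Pool.Agent.H61.NVK.TargetsE1

/-!
# NVK, part E, third group: the central value and the cut-off function as holomorphic functions

Targets of the board `nvk_modules`, rows `E_...` (captain helper61).
-/

set_option autoImplicit false

open MeasureTheory Set Filter NumberField NumberField.InfinitePlace
open scoped Real nonZeroDivisors

namespace Pool.Agent.H61.NVK

open Pool.Agent.H65.CM4 Pool.Agent.H61.CM4

section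

/-- the sector of the discriminants -/
def Sc (k : Type) [Field k] [NumberField k] : Set (Pl k → ℂ) :=
  {W | ∀ v, 0 < (W v).re ∧ |(W v).im| < (W v).re / (40 * dg k)}

variable {k : Type} [Field k] [NumberField k] [IsTotallyReal k]

/-- half of the square root, complex -/
noncomputable def hy (W : Pl k → ℂ) : Pl k → ℂ := fun v => W v ^ (1 / 2 : ℂ) / 2

/-- half of a real vector, complex -/
noncomputable def hx (b : Pl k → ℝ) : Pl k → ℂ := fun v => ((b v / 2 : ℝ) : ℂ)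

open Classical in
/-- the central value with complex discriminants -/
noncomputable def zc (A f : Ideal (𝓞 k)) (b : Pl k → ℝ) (W : Pl k → ℂ) : ℂ :=
  2 * ((Real.sqrt (nm f / dk k) : ℝ) : ℂ) / gG (1 / 2) ^ dg k *
    (∏ v, W v ^ (-(1 / 4) : ℂ)) *
    ∑ c : ClassGroup (𝓞 k), ∑' u : V2 k, if u ∈ Lb (ci c) (A * f) ∧ u ∈ Fo k then
      Kc (dg k) (1 / 2) (qn (hx b) (hy W) u / ((dk k * ix (Lb (ci c) (A * f)) : ℕ) : ℂ)) else 0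

end

/-! ### The cut-off function -/

/-- (VC0) the kernel on the left of the pole. -/
def T_VC0 : Prop :=
  ∀ n : ℕ, 1 ≤ n → ∃ C : ℝ, 0 < C ∧ ∀ r : ℂ, 0 < r.re → |r.im| ≤ r.re / 10 → ‖r‖ ≤ 1 →
    ‖r ^ (1 / 2 : ℂ) * Kc n (1 / 2) r / gG (1 / 2) ^ n - 1‖ ≤ C * ‖r‖

/-- (VCC) the cut-off function as a holomorphic function. -/
def T_VCC : Prop :=
  ∀ (k : Type) [Field k] [NumberField k] [IsTotallyReal k], ∃ V : ℂ → ℂ,
    DifferentiableOn ℂ V {r : ℂ | 0 < r.re} ∧ (∀ x : ℝ, 0 < x → V x = ((Vk k x : ℝ) : ℂ)) ∧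
    ∀ B : ℕ, ∃ C : ℝ, 0 < C ∧ ∀ r : ℂ, 0 < r.re → |r.im| ≤ r.re / 10 →
      ‖V r‖ ≤ C * (1 + ‖r‖) ^ (-(B : ℝ)) ∧ ‖V r - 1‖ ≤ C * ‖r‖

/-- (VKF) the cut-off function on the real line. -/
def T_VKF : Prop :=
  ∀ (k : Type) [Field k] [NumberField k] [IsTotallyReal k],
    (∀ x : ℝ, 0 < x → DifferentiableAt ℝ (Vk k) x) ∧ ContinuousOn (Vk k) (Ioi 0) ∧
    ContinuousOn (deriv (Vk k)) (Ioi 0) ∧ ∀ B : ℕ, ∃ C : ℝ, 0 < C ∧ ∀ x : ℝ, 0 < x →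
      |Vk k x| ≤ C * (1 + x) ^ (-(B : ℝ)) ∧ |Vk k x - 1| ≤ C * x ∧
      |deriv (Vk k) x| ≤ C * (1 + x) ^ (-(B : ℝ))

/-! ### The central value -/

/-- (LSB) a lattice sum. -/
def T_LSB : Prop :=
  ∀ (k : Type) [Field k] [NumberField k] [IsTotallyReal k], ∃ C : ℝ, 0 < C ∧
    ∀ p : Pl k → ℝ, Summable (fun a : 𝓞 k => ∏ v, (1 + (rv v (a : k) + p v) ^ 2)⁻¹) ∧
      ∑' a : 𝓞 k, ∏ v, (1 + (rv v (a : k) + p v) ^ 2)⁻¹ ≤ C

open Classical in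
/-- (EBD) the bound of the Epstein zeta functions in the domain of convergence. -/
def T_EBD : Prop :=
  ∀ (k : Type) [Field k] [NumberField k] [IsTotallyReal k], ∃ (C : ℝ) (j : ℕ), 0 < C ∧
    ∀ x y : Pl k → ℝ, (∀ v, 0 < y v) →
      Summable (fun u : V2 k => if u ∈ Fo k then (qp x y u) ^ (-2 : ℝ) else 0) ∧
      (∑' u : V2 k, if u ∈ Fo k then (qp x y u) ^ (-2 : ℝ) else 0) ≤
        C * (∏ v, (y v + (y v)⁻¹)) ^ j

/-- (QCX) the metrics with complex discriminants. -/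
def T_QCX : Prop :=
  ∀ (k : Type) [Field k] [NumberField k] [IsTotallyReal k] (b : Pl k → ℝ) (W : Pl k → ℂ)
    (u : V2 k), W ∈ Sc k → u ≠ 0 →
    0 < (qn (hx b) (hy W) u).re ∧
    |(qn (hx b) (hy W) u).im| ≤ (qn (hx b) (hy W) u).re / 10 ∧
    qp (fun v => b v / 2) (fun v => Real.sqrt ‖W v‖ / 2) u ≤ 2 ^ dg k * ‖qn (hx b) (hy W) u‖

/-- (ZCX) the central value with complex discriminants. -/
def T_ZCX : Prop :=
  ∀ (k : Type) [Field k] [NumberField k] [IsTotallyReal k],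
    (∀ (A f : (Ideal (𝓞 k))⁰) (b D : Pl k → ℝ), (∀ v, 0 < D v) →
      zc (A : Ideal (𝓞 k)) f b (fun v => (D v : ℂ)) = ((zf (A : Ideal (𝓞 k)) f b D : ℝ) : ℂ)) ∧
    (∀ (A f : (Ideal (𝓞 k))⁰) (b : Pl k → ℝ), ContinuousOn (zc (A : Ideal (𝓞 k)) f b) (Sc k)) ∧
    (∀ (A f : (Ideal (𝓞 k))⁰) (b : Pl k → ℝ) (U : Set ℂ) (W : ℂ → Pl k → ℂ), IsOpen U →
      (∀ v, DifferentiableOn ℂ (fun s => W s v) U) → (∀ s ∈ U, W s ∈ Sc k) →
      DifferentiableOn ℂ (fun s => zc (A : Ideal (𝓞 k)) f b (W s)) U) ∧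
    ∃ (C : ℝ) (j : ℕ), 0 < C ∧ ∀ (A f : (Ideal (𝓞 k))⁰) (b : Pl k → ℝ) (W : Pl k → ℂ),
      W ∈ Sc k → ‖zc (A : Ideal (𝓞 k)) f b W‖ ≤
        C * (nm (A : Ideal (𝓞 k)) + nm (f : Ideal (𝓞 k))) ^ j * (∏ v, (‖W v‖ + ‖W v‖⁻¹)) ^ j

/-- (ZCB) the central value with real discriminants: continuity and a bound. -/
def T_ZCB : Prop :=
  ∀ (k : Type) [Field k] [NumberField k] [IsTotallyReal k],
    (∀ (A f : (Ideal (𝓞 k))⁰) (b : Pl k → ℝ),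
      ContinuousOn (zf (A : Ideal (𝓞 k)) f b) {D | ∀ v, 0 < D v}) ∧
    ∃ (C : ℝ) (j : ℕ), 0 < C ∧ ∀ (A f : (Ideal (𝓞 k))⁰) (b D : Pl k → ℝ), (∀ v, 0 < D v) →
      |zf (A : Ideal (𝓞 k)) f b D| ≤
        C * (nm (A : Ideal (𝓞 k)) + nm (f : Ideal (𝓞 k))) ^ j * (∏ v, (D v + (D v)⁻¹)) ^ j

/-- (HOZ) the central value along a line. -/
def T_HOZ : Prop :=
  ∀ (k : Type) [Field k] [NumberField k] [IsTotallyReal k] (η : ℝ), 0 < η → η ≤ 1 →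
    ∃ (ρ C : ℝ) (j : ℕ), 0 < ρ ∧ 0 < C ∧
      ∀ (A f : (Ideal (𝓞 k))⁰) (b p e : Pl k → ℝ) (Y : ℝ), 1 ≤ Y →
      (∀ v, η ≤ p v ∧ p v ≤ 1 / η) → (∀ v, |e v| ≤ 1) → ∃ F : ℂ → ℂ,
        DifferentiableOn ℂ F (Metric.ball 0 ρ) ∧
        (∀ s : ℝ, |s| < ρ →
          F s = ((zf (A : Ideal (𝓞 k)) f b (fun v => Y * (p v + s * e v)) : ℝ) : ℂ)) ∧
        ∀ s ∈ Metric.ball (0 : ℂ) ρ, ‖F s‖ ≤
          C * (nm (A : Ideal (𝓞 k)) + nm (f : Ideal (𝓞 k)) + Y) ^ j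

/-- (HOV) the cut-off function along a line. -/
def T_HOV : Prop :=
  ∀ (k : Type) [Field k] [NumberField k] [IsTotallyReal k] (η : ℝ), 0 < η → η ≤ 1 →
    ∃ ρ : ℝ, 0 < ρ ∧ ∀ B : ℕ, ∃ C : ℝ, 0 < C ∧
      ∀ (p e : Pl k → ℝ) (Y x : ℝ), 1 ≤ Y → 0 < x →
      (∀ v, η ≤ p v ∧ p v ≤ 1 / η) → (∀ v, |e v| ≤ 1) → ∃ F : ℂ → ℂ,
        DifferentiableOn ℂ F (Metric.ball 0 ρ) ∧
        (∀ s : ℝ, |s| < ρ → F s = ((Vk k (x / sD (fun v => Y * (p v + s * e v))) : ℝ) : ℂ)) ∧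
        ∀ s ∈ Metric.ball (0 : ℂ) ρ, ‖F s‖ ≤
          C * (1 + x / Y ^ ((dg k : ℝ) / 2)) ^ (-(B : ℝ))

/-- (LND) derivatives along a line of a product of a smooth function with compact support and
a function with holomorphic continuations along lines. -/
def T_LND : Prop :=
  ∀ (ι : Type) [Fintype ι] (G : (ι → ℝ) → ℝ) (η ρ : ℝ), 0 < η → 0 < ρ →
    ContDiff ℝ (⊤ : ℕ∞) G → (∀ u, (∃ v, u v ∉ Icc η (1 / η)) → G u = 0) →
    ∀ m : ℕ, ∃ C : ℝ, 0 < C ∧ ∀ (H : (ι → ℝ) → ℝ) (L : ℝ), 0 ≤ L →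
      (∀ p e : ι → ℝ, (∀ v, η ≤ p v ∧ p v ≤ 1 / η) → (∀ v, |e v| ≤ 1) → ∃ F : ℂ → ℂ,
        DifferentiableOn ℂ F (Metric.ball 0 ρ) ∧
        (∀ s : ℝ, |s| < ρ → F s = ((H (fun v => p v + s * e v) : ℝ) : ℂ)) ∧
        ∀ s ∈ Metric.ball (0 : ℂ) ρ, ‖F s‖ ≤ L) →
      ∀ p e : ι → ℝ, (∀ v, |e v| ≤ 1) →
        ContDiff ℝ m (fun s : ℝ => G (fun v => p v + s * e v) * H (fun v => p v + s * e v)) ∧
        ∀ s : ℝ, |iteratedDeriv m (fun s : ℝ =>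
          G (fun v => p v + s * e v) * H (fun v => p v + s * e v)) s| ≤ C * L

/-- (DER) the derivatives along lines. -/
def T_DER : Prop :=
  ∀ (k : Type) [Field k] [NumberField k] [IsTotallyReal k] (G : (Pl k → ℝ) → ℝ) (η : ℝ),
    0 < η → ContDiff ℝ (⊤ : ℕ∞) G → (∀ u, (∃ v, u v ∉ Icc η (1 / η)) → G u = 0) →
    ∃ j : ℕ, ∀ m B : ℕ, ∃ C : ℝ, 0 < C ∧
      ∀ (A f : (Ideal (𝓞 k))⁰) (b p e : Pl k → ℝ) (Y x : ℝ), 1 ≤ Y → 0 < x →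
      (∀ v, |e v| ≤ 1) →
      (ContDiff ℝ m (fun s : ℝ => G (fun v => p v + s * e v) *
          zf (A : Ideal (𝓞 k)) f b (fun v => Y * (p v + s * e v))) ∧
        ∀ s : ℝ, |iteratedDeriv m (fun s : ℝ => G (fun v => p v + s * e v) *
          zf (A : Ideal (𝓞 k)) f b (fun v => Y * (p v + s * e v))) s| ≤
          C * (nm (A : Ideal (𝓞 k)) + nm (f : Ideal (𝓞 k)) + Y) ^ j) ∧
      (ContDiff ℝ m (fun s : ℝ => G (fun v => p v + s * e v) *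
          (Vk k (x / sD (fun v => Y * (p v + s * e v))) *
            zf (A : Ideal (𝓞 k)) f b (fun v => Y * (p v + s * e v)))) ∧
        ∀ s : ℝ, |iteratedDeriv m (fun s : ℝ => G (fun v => p v + s * e v) *
          (Vk k (x / sD (fun v => Y * (p v + s * e v))) *
            zf (A : Ideal (𝓞 k)) f b (fun v => Y * (p v + s * e v)))) s| ≤
          C * (nm (A : Ideal (𝓞 k)) + nm (f : Ideal (𝓞 k)) + Y) ^ j *
            (1 + x / Y ^ ((dg k : ℝ) / 2)) ^ (-(B : ℝ)))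

end Pool.Agent.H61.NVK
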