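import Pool.Agent.H61.NVK.TargetsE1

/-!
# NVK, part E, second group: theta functions, the average over `b`, the constant term

Targets of the board `nvk_modules`, rows `E_...` (captain helper61).
-/

set_option autoImplicit false

open MeasureTheory Set Filter NumberField NumberField.InfinitePlace NumberField.Units
  NumberField.Units.dirichletUnitTheorem
open scoped Real nonZeroDivisors

namespace Pool.Agent.H61.NVK

open Pool.Agent.H65.CM4 Pool.Agent.H61.CM4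

section

variable {k : Type} [Field k] [NumberField k]

/-- the dual fractional ideal -/
noncomputable def dF (I : Pool.Agent.H25.HK.FI k) : Pool.Agent.H25.HK.FI k :=
  Pool.Agent.H25.HK.du k I

/-- the covolume of a fractional ideal -/
noncomputable def cF (I : Pool.Agent.H25.HK.FI k) : ℝ := Pool.Agent.H25.HK.cv k I

/-- the theta function of a fractional ideal -/
noncomputable def tF (I : Pool.Agent.H25.HK.FI k) (y : Pl k → ℝ) : ℝ := Pool.Agent.H25.HK.th k I y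

/-- the theta function averaged over the units -/
noncomputable def fF (I : Pool.Agent.H25.HK.FI k) (t : ℝ) : ℝ := Pool.Agent.H25.HK.ff k I t

/-- an integral ideal as a fractional ideal -/
noncomputable def iF (I : Ideal (𝓞 k)) : Pool.Agent.H25.HK.FI k := (I : Pool.Agent.H25.HK.FI k)

/-- the regularised integral of the theta function of a fractional ideal -/
noncomputable def RF (I : Pool.Agent.H25.HK.FI k) : ℝ :=
  (∫ t in Ioi (1 : ℝ), (fF I t - vR k)) + ∫ t in Ioc (0 : ℝ) 1, (fF I t - vR k / (cF I * t))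

/-- the norm of a fractional ideal -/
noncomputable def nF (I : Pool.Agent.H25.HK.FI k) : ℝ := (FractionalIdeal.absNorm I : ℝ)

/-- the constant of a fractional ideal, it depends only on the class -/
noncomputable def sF (I : Pool.Agent.H25.HK.FI k) : ℝ :=
  nF I * (RF I - vR k) + vR k / Real.sqrt (dk k) * Real.log (nF I)

/-- the natural number `q` is a denominator of the fractional ideal -/
def Dn (q : ℕ) (I : Pool.Agent.H25.HK.FI k) : Prop := ∀ x ∈ I, ∃ y : 𝓞 k, (y : k) = (q : k) * x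

end

section

variable {k : Type} [Field k] [NumberField k] [IsTotallyReal k]

open Classical in
/-- the theta function of the product of two fractional ideals -/
noncomputable def T2 (I J : Pool.Agent.H25.HK.FI k) (x y c : Pl k → ℝ) : ℝ :=
  ∑' u : k × k, if u.1 ∈ I ∧ u.2 ∈ J then
    Real.exp (-π * ∑ v, Real.exp (c v) / y v *
      ((rv v u.1 + rv v u.2 * x v) ^ 2 + (rv v u.2 * y v) ^ 2)) else 0

/-- the factor of the nonzero frequencies -/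
noncomputable def eF (I : Pool.Agent.H25.HK.FI k) (y c : Pl k → ℝ) : ℝ :=
  Real.exp (-(∑ v, (c v - Real.log (y v))) / 2) / cF I

/-- the constant term of the theta function -/
noncomputable def Z0 (I J : Pool.Agent.H25.HK.FI k) (y c : Pl k → ℝ) : ℝ :=
  tF I (fun v => c v - Real.log (y v)) + eF I y c * (tF J (fun v => c v + Real.log (y v)) - 1)

/-- the exponent -/
noncomputable def ex2 (y c : Pl k → ℝ) (p : k × k) : ℝ :=
  ∑ v, y v * (Real.exp (c v) * rv v p.2 ^ 2 + Real.exp (-c v) * rv v p.1 ^ 2)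

open Classical in
/-- the sum of the nonzero frequencies, one half of the exponent -/
noncomputable def SS (I J : Pool.Agent.H25.HK.FI k) (y c : Pl k → ℝ) : ℝ :=
  ∑' p : k × k, if (p.1 ∈ I ∧ p.1 ≠ 0) ∧ p.2 ∈ J ∧ p.2 ≠ 0 then
    Real.exp (-(π / 2) * ex2 y c p) else 0

open scoped Classical in
/-- the constant term averaged over the units -/
noncomputable def z0 (I J : Pool.Agent.H25.HK.FI k) (y : Pl k → ℝ) (t : ℝ) : ℝ :=
  ∫ z in Pool.Agent.H25.HK.Fd k, Z0 I J y (Pool.Agent.H25.HK.yc k (Real.log t) z)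

/-- the central value of a lattice, in terms of the theta functions -/
noncomputable def Lam (M : La k) (x y : Pl k → ℝ) : ℝ :=
  (∫ t in Ioi (1 : ℝ), (f2 M x y t - vR k)) +
    (Dm M : ℝ)⁻¹ * (∫ t in Ioi (1 : ℝ), (f2 (du M) x y (((Dm M : ℝ) ^ dg k)⁻¹ * t) - vR k)) -
    vR k - (Dm M : ℝ)⁻¹ * vR k

/-- the constant term of the central value of a lattice -/
noncomputable def L0 (a B : Ideal (𝓞 k)) (y : Pl k → ℝ) : ℝ :=
  (∫ t in Ioi (1 : ℝ), (z0 (iF (a * B)) (iF a) y t - vR k)) +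
    (Dm (Lb a B) : ℝ)⁻¹ *
      (∫ t in Ioi (1 : ℝ), (z0 (dF (iF a)) (dF (iF (a * B))) y t - vR k)) -
    vR k - (Dm (Lb a B) : ℝ)⁻¹ * vR k

end

/-! ### The central value in terms of theta functions -/

open Classical in
/-- (LAM) the central value of one lattice. -/
def T_LAM : Prop :=
  ∀ (k : Type) [Field k] [NumberField k] [IsTotallyReal k] (M : La k) (x y : Pl k → ℝ),
    ix M ≠ 0 → (∀ v, 0 < y v) →
      IntegrableOn (fun t : ℝ => f2 M x y t - vR k) (Ioi 1) ∧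
      IntegrableOn (fun t : ℝ => f2 (du M) x y (((Dm M : ℝ) ^ dg k)⁻¹ * t) - vR k) (Ioi 1) ∧
      ∀ Φ : ℂ → ℂ, Differentiable ℂ Φ →
        (∀ s : ℂ, 1 < s.re → Φ s = gG s ^ dg k * Zd M x y (ix M : ℝ)⁻¹ s) →
        Φ (1 / 2) = gG (1 / 2) ^ dg k * (((2 : ℝ) ^ (3 * (dg k : ℝ) / 2 - 1) *
          (Real.sqrt (ix M) * Lam M x y) : ℝ) : ℂ)

/-- (ZTH) the central value. -/
def T_ZTH : Prop :=
  ∀ (k : Type) [Field k] [NumberField k] [IsTotallyReal k]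
    (B : (Ideal (𝓞 k))⁰) (x y : Pl k → ℝ), (∀ v, 0 < y v) →
      ze (B : Ideal (𝓞 k)) x y = (2 : ℝ) ^ (3 * (dg k : ℝ) / 2 - 1) *
        ∑ c : ClassGroup (𝓞 k), Real.sqrt (ix (Lb (ci c) (B : Ideal (𝓞 k)))) *
          Lam (Lb (ci c) B) x y

/-! ### Poisson summation -/

/-- (POS) Poisson summation for Gaussians with a shift. -/
def T_POS : Prop :=
  ∀ (J : Type) [Fintype J] [DecidableEq J] (A : Matrix J J ℝ) (p : J → ℝ), A.det ≠ 0 →
    Summable (fun n : J → ℤ => Real.exp (-π * ∑ i, (A.mulVec (fun i => (n i : ℝ)) i + p i) ^ 2)) ∧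
    Summable (fun n : J → ℤ =>
      Real.exp (-π * ∑ i, ((A⁻¹).transpose.mulVec (fun i => (n i : ℝ)) i) ^ 2)) ∧
    ∑' n : J → ℤ, Real.exp (-π * ∑ i, (A.mulVec (fun i => (n i : ℝ)) i + p i) ^ 2) =
      |A.det|⁻¹ * ∑' n : J → ℤ,
        Real.exp (-π * ∑ i, ((A⁻¹).transpose.mulVec (fun i => (n i : ℝ)) i) ^ 2) *
          Real.cos (2 * π * ∑ i, (A⁻¹).transpose.mulVec (fun i => (n i : ℝ)) i * p i)

open Classical in
/-- (PSF) the same for a fractional ideal. -/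
def T_PSF : Prop :=
  ∀ (k : Type) [Field k] [NumberField k] [IsTotallyReal k] (I : Pool.Agent.H25.HK.FI k)
    (y p : Pl k → ℝ), I ≠ 0 →
    Summable (fun r : k => if r ∈ I then
      Real.exp (-π * ∑ v, Real.exp (y v) * (rv v r + p v) ^ 2) else 0) ∧
    Summable (fun m : k => if m ∈ dF I then
      Real.exp (-π * ∑ v, Real.exp (-y v) * rv v m ^ 2) else 0) ∧
    ∑' r : k, (if r ∈ I then Real.exp (-π * ∑ v, Real.exp (y v) * (rv v r + p v) ^ 2) else 0) =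
      Real.exp (-(∑ v, y v) / 2) / cF I * ∑' m : k, if m ∈ dF I then
        Real.exp (-π * ∑ v, Real.exp (-y v) * rv v m ^ 2) *
          Real.cos (2 * π * ∑ v, rv v m * p v) else 0

open Classical in
/-- (SPL) the constant term of the theta function. -/
def T_SPL : Prop :=
  ∀ (k : Type) [Field k] [NumberField k] [IsTotallyReal k] (I J : Pool.Agent.H25.HK.FI k)
    (x y c : Pl k → ℝ), I ≠ 0 → J ≠ 0 → (∀ v, 0 < y v) →
    Summable (fun u : k × k => if u.1 ∈ I ∧ u.2 ∈ J then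
      Real.exp (-π * ∑ v, Real.exp (c v) / y v *
        ((rv v u.1 + rv v u.2 * x v) ^ 2 + (rv v u.2 * y v) ^ 2)) else 0) ∧
    Summable (fun p : k × k => if (p.1 ∈ dF I ∧ p.1 ≠ 0) ∧ p.2 ∈ J ∧ p.2 ≠ 0 then
      Real.exp (-(π / 2) * ex2 y c p) else 0) ∧
    T2 I J x y c = Z0 I J y c + eF I y c *
      ∑' p : k × k, if (p.1 ∈ dF I ∧ p.1 ≠ 0) ∧ p.2 ∈ J ∧ p.2 ≠ 0 then
        Real.exp (-π * ex2 y c p) * Real.cos (2 * π * ∑ v, rv v p.1 * (rv v p.2 * x v)) else 0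

/-- (T2E) the theta functions of the lattice and of its dual. -/
def T_T2E : Prop :=
  ∀ (k : Type) [Field k] [NumberField k] [IsTotallyReal k] (a B : (Ideal (𝓞 k))⁰)
    (x y c : Pl k → ℝ), (∀ v, 0 < y v) →
    th2 (Lb (a : Ideal (𝓞 k)) B) x y c =
      T2 (iF ((a : Ideal (𝓞 k)) * (B : Ideal (𝓞 k)))) (iF a) x y c ∧
    th2 (du (Lb (a : Ideal (𝓞 k)) B)) x y
        (fun v => c v - 2 * Real.log (Dm (Lb (a : Ideal (𝓞 k)) B))) =
      T2 (dF (iF a)) (dF (iF ((a : Ideal (𝓞 k)) * (B : Ideal (𝓞 k))))) x y c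

/-- (FRI) fractional ideals: norms, covolumes, denominators. -/
def T_FRI : Prop :=
  ∀ (k : Type) [Field k] [NumberField k] [IsTotallyReal k] (a B : (Ideal (𝓞 k))⁰),
    iF (a : Ideal (𝓞 k)) ≠ 0 ∧ iF ((a : Ideal (𝓞 k)) * (B : Ideal (𝓞 k))) ≠ 0 ∧
    dF (iF (a : Ideal (𝓞 k))) ≠ 0 ∧ dF (iF ((a : Ideal (𝓞 k)) * (B : Ideal (𝓞 k)))) ≠ 0 ∧
    iF ((a : Ideal (𝓞 k)) * (B : Ideal (𝓞 k))) = iF (B : Ideal (𝓞 k)) * iF (a : Ideal (𝓞 k)) ∧
    dF (iF (a : Ideal (𝓞 k))) =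
      iF (B : Ideal (𝓞 k)) * dF (iF ((a : Ideal (𝓞 k)) * (B : Ideal (𝓞 k)))) ∧
    (∀ I : Pool.Agent.H25.HK.FI k, I ≠ 0 → dF (dF I) = I ∧ 0 < cF I ∧ 0 < nF I ∧
      cF I = Real.sqrt (dk k) * nF I ∧ cF (dF I) * cF I = 1) ∧
    nF (iF (a : Ideal (𝓞 k))) = nm (a : Ideal (𝓞 k)) ∧
    nF (iF ((a : Ideal (𝓞 k)) * (B : Ideal (𝓞 k)))) =
      nm (a : Ideal (𝓞 k)) * nm (B : Ideal (𝓞 k)) ∧
    (Dm (Lb (a : Ideal (𝓞 k)) B) : ℝ) = cF (iF (a : Ideal (𝓞 k))) *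
      cF (iF ((a : Ideal (𝓞 k)) * (B : Ideal (𝓞 k)))) ∧
    Dn 1 (iF (a : Ideal (𝓞 k))) ∧ Dn 1 (iF ((a : Ideal (𝓞 k)) * (B : Ideal (𝓞 k)))) ∧
    Dn (Dm (Lb (a : Ideal (𝓞 k)) B)) (dF (iF (a : Ideal (𝓞 k)))) ∧
    Dn (Dm (Lb (a : Ideal (𝓞 k)) B)) (dF (iF ((a : Ideal (𝓞 k)) * (B : Ideal (𝓞 k)))))

/-! ### The average -/

/-- (AVC) the average of the characters. -/
def T_AVC : Prop :=
  ∀ (k : Type) [Field k] [NumberField k] [IsTotallyReal k] (I J : Pool.Agent.H25.HK.FI k)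
    (B h : (Ideal (𝓞 k))⁰) (R : Finset (𝓞 k)) (β : Pl k → ℝ) (p : k × k), I ≠ 0 → J ≠ 0 →
    I = iF (B : Ideal (𝓞 k)) * J → RpI (h : Ideal (𝓞 k)) (Ideal.span {2} * (B : Ideal (𝓞 k))) R →
    (p.1 ∈ dF I ∧ p.1 ≠ 0) → p.2 ∈ J ∧ p.2 ≠ 0 →
    ∑ j ∈ R, Real.cos (2 * π * ∑ v, rv v p.1 * (rv v p.2 * ((β v + ev j v) / 2))) ≠ 0 →
    2 ^ dg k / (nm (h : Ideal (𝓞 k)) * dk k) ≤ ∏ v, |rv v p.1 * rv v p.2|

/-- the exponential factor -/
noncomputable def EE {k : Type} [Field k] [NumberField k] (Y N : ℝ) : ℝ :=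
  Real.exp (-(π * dg k * (Y / (N * dk k)) ^ (1 / (dg k : ℝ))))

/-- (THA) the average of the theta function. -/
def T_THA : Prop :=
  ∀ (k : Type) [Field k] [NumberField k] [IsTotallyReal k] (I J : Pool.Agent.H25.HK.FI k)
    (B h : (Ideal (𝓞 k))⁰) (R : Finset (𝓞 k)) (β y c : Pl k → ℝ), I ≠ 0 → J ≠ 0 →
    (∀ v, 0 < y v) → I = iF (B : Ideal (𝓞 k)) * J →
    RpI (h : Ideal (𝓞 k)) (Ideal.span {2} * (B : Ideal (𝓞 k))) R →
    |(1 / (R.card : ℝ)) * ∑ j ∈ R, T2 I J (fun v => (β v + ev j v) / 2) y c - Z0 I J y c| ≤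
      eF I y c * EE (k := k) (∏ v, (2 * y v)) (nm (h : Ideal (𝓞 k))) * SS (dF I) J y c

open Classical in
/-- (TBO) Gaussian sums over a fractional ideal. -/
def T_TBO : Prop :=
  ∀ (k : Type) [Field k] [NumberField k] [IsTotallyReal k], ∃ C : ℝ, 0 < C ∧
    ∀ (I : Pool.Agent.H25.HK.FI k) (q : ℕ) (δ : ℝ) (d : Pl k → ℝ), 1 ≤ q → Dn q I → 0 < δ →
      (∀ v, δ ≤ d v) →
      Summable (fun m : k => if m ∈ I ∧ m ≠ 0 then Real.exp (-∑ v, d v * rv v m ^ 2) else 0) ∧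
      (∑' m : k, if m ∈ I ∧ m ≠ 0 then Real.exp (-∑ v, d v * rv v m ^ 2) else 0) ≤
        C * (1 + (q : ℝ) ^ 2 / δ) ^ dg k * Real.exp (-(δ / (2 * (q : ℝ) ^ 2)))

/-- (SSB) the bound of the sum of the nonzero frequencies. -/
def T_SSB : Prop :=
  ∀ (k : Type) [Field k] [NumberField k] [IsTotallyReal k] (η : ℝ), 0 < η →
    ∃ (C : ℝ) (j : ℕ), 0 < C ∧ ∀ (I J : Pool.Agent.H25.HK.FI k) (q : ℕ) (y : Pl k → ℝ) (t : ℝ),
      ∀ z ∈ Pool.Agent.H25.HK.Fd k, 1 ≤ q → Dn q I → Dn q J → (∀ v, η ≤ y v) → 1 ≤ t →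
      SS I J y (Pool.Agent.H25.HK.yc k (Real.log t) z) ≤ C * (q : ℝ) ^ j * t ^ (-2 : ℝ)

/-- (BAI) the average of the central value of a lattice. -/
def T_BAI : Prop :=
  ∀ (k : Type) [Field k] [NumberField k] [IsTotallyReal k] (η : ℝ), 0 < η →
    ∃ (C : ℝ) (j : ℕ), 0 < C ∧ ∀ (a B h : (Ideal (𝓞 k))⁰) (R : Finset (𝓞 k)) (β y : Pl k → ℝ),
      (∀ v, η ≤ y v) → RpI (h : Ideal (𝓞 k)) (Ideal.span {2} * (B : Ideal (𝓞 k))) R →
      |(1 / (R.card : ℝ)) * ∑ j ∈ R, Lam (Lb (a : Ideal (𝓞 k)) B) (fun v => (β v + ev j v) / 2) y -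
        L0 (a : Ideal (𝓞 k)) B y| ≤
        C * (nm (a : Ideal (𝓞 k)) * nm (B : Ideal (𝓞 k)) + ∏ v, y v) ^ j *
          EE (k := k) (∏ v, (2 * y v)) (nm (h : Ideal (𝓞 k)))

/-! ### The constant term -/

/-- (Z0I) the constant term averaged over the units. -/
def T_Z0I : Prop :=
  ∀ (k : Type) [Field k] [NumberField k] [IsTotallyReal k] (I J : Pool.Agent.H25.HK.FI k)
    (y : Pl k → ℝ) (t : ℝ), I ≠ 0 → J ≠ 0 → (∀ v, 0 < y v) → 0 < t →
    z0 I J y t = fF I (t / Real.sqrt (∏ v, y v)) +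
      Real.sqrt (∏ v, y v) / (cF I * t) * (fF J (t * Real.sqrt (∏ v, y v)) - vR k)

/-- (FFE) the functional equation of the averaged theta function. -/
def T_FFE : Prop :=
  ∀ (k : Type) [Field k] [NumberField k] [IsTotallyReal k] (I : Pool.Agent.H25.HK.FI k), I ≠ 0 →
    (∀ t : ℝ, 0 < t → fF (dF I) t = cF I / t * fF I (1 / t)) ∧
    (∀ T : ℝ, 0 < T → IntegrableOn (fun t : ℝ => fF I t - vR k) (Ioi T) ∧
      IntegrableOn (fun t : ℝ => (fF I t - vR k) / t) (Ioi T) ∧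
      IntegrableOn (fun t : ℝ => fF I t - vR k / (cF I * t)) (Ioc 0 T)) ∧
    (∀ (x : k) (t : ℝ), x ≠ 0 → 0 < t →
      fF (FractionalIdeal.spanSingleton (𝓞 k)⁰ x * I) t = fF I ((∏ v, |rv v x|) * t)) ∧
    0 < vR k

/-- (L0E) the constant term of a lattice. -/
def T_L0E : Prop :=
  ∀ (k : Type) [Field k] [NumberField k] [IsTotallyReal k] (a B : (Ideal (𝓞 k))⁰)
    (y : Pl k → ℝ), (∀ v, 0 < y v) →
    (L0 (a : Ideal (𝓞 k)) B y = Real.sqrt (∏ v, y v) *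
      ((RF (iF ((a : Ideal (𝓞 k)) * (B : Ideal (𝓞 k)))) - vR k) +
        (Dm (Lb (a : Ideal (𝓞 k)) B) : ℝ)⁻¹ * (RF (dF (iF (a : Ideal (𝓞 k)))) - vR k) +
        vR k / cF (iF ((a : Ideal (𝓞 k)) * (B : Ideal (𝓞 k)))) * Real.log (∏ v, y v)))

/-- (SCL) the constant of a fractional ideal depends only on the class. -/
def T_SCL : Prop :=
  ∀ (k : Type) [Field k] [NumberField k] [IsTotallyReal k],
    (∀ (I : Pool.Agent.H25.HK.FI k) (x : k), I ≠ 0 → x ≠ 0 →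
      sF (FractionalIdeal.spanSingleton (𝓞 k)⁰ x * I) = sF I) ∧
    (∀ a : (Ideal (𝓞 k))⁰, sF (iF (a : Ideal (𝓞 k))) = sC (a : Ideal (𝓞 k))) ∧
    (∀ a b : (Ideal (𝓞 k))⁰, ClassGroup.mk0 a = ClassGroup.mk0 b →
      sC (a : Ideal (𝓞 k)) = sC (b : Ideal (𝓞 k))) ∧
    ∃ κ : ClassGroup (𝓞 k), ∀ a b : (Ideal (𝓞 k))⁰,
      ClassGroup.mk0 b = κ * (ClassGroup.mk0 a)⁻¹ → sF (dF (iF (a : Ideal (𝓞 k)))) =
        sC (b : Ideal (𝓞 k))

/-- (REG) the residue. -/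
def T_REG : Prop :=
  ∀ (k : Type) [Field k] [NumberField k] [IsTotallyReal k],
    kp k = 2 ^ (dg k - 1) * classNumber k * vR k / Real.sqrt (dk k) ∧ 1 ≤ dg k ∧ 0 < vR k

/-- (CTE) the constant term. -/
def T_CTE : Prop :=
  ∀ (k : Type) [Field k] [NumberField k] [IsTotallyReal k] (A f : (Ideal (𝓞 k))⁰)
    (D : Pl k → ℝ), (∀ v, 0 < D v) →
    Real.sqrt (nm (f : Ideal (𝓞 k))) / Real.sqrt (sD D) * ((2 : ℝ) ^ (3 * (dg k : ℝ) / 2 - 1) *
      ∑ c : ClassGroup (𝓞 k), Real.sqrt (ix (Lb (ci c) ((A : Ideal (𝓞 k)) * (f : Ideal (𝓞 k))))) *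
        L0 (ci c) ((A : Ideal (𝓞 k)) * (f : Ideal (𝓞 k))) (fun v => Real.sqrt (D v) / 2)) =
      ct (A : Ideal (𝓞 k)) f D

/-! ### The averages of the central value -/

/-- (BAV) the average over `b`. -/
def T_BAV : Prop :=
  ∀ (k : Type) [Field k] [NumberField k] [IsTotallyReal k] (η : ℝ), 0 < η →
    ∃ (C c : ℝ) (j : ℕ), 0 < C ∧ 0 < c ∧ ∀ (A f h : (Ideal (𝓞 k))⁰) (R : Finset (𝓞 k))
      (β D : Pl k → ℝ) (Y : ℝ), 1 ≤ Y → (∀ v, η * Y ≤ D v ∧ D v ≤ Y / η) →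
      RpI (h : Ideal (𝓞 k)) (Ideal.span {2} * ((A : Ideal (𝓞 k)) * (f : Ideal (𝓞 k)))) R →
      |(1 / (R.card : ℝ)) * ∑ j ∈ R, zf (A : Ideal (𝓞 k)) f (fun v => β v + ev j v) D -
        ct (A : Ideal (𝓞 k)) f D| ≤
        C * (nm (A : Ideal (𝓞 k)) + nm (f : Ideal (𝓞 k)) + Y) ^ j *
          Real.exp (-(c * (Y ^ ((dg k : ℝ) / 2) / nm (h : Ideal (𝓞 k))) ^ (1 / (dg k : ℝ))))

/-- (BSU) sums over `b` with a periodic weight. -/
def T_BSU : Prop :=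
  ∀ (k : Type) [Field k] [NumberField k] [IsTotallyReal k] (η : ℝ), 0 < η →
    ∃ (C c : ℝ) (j : ℕ), 0 < C ∧ 0 < c ∧ ∀ (A f h : (Ideal (𝓞 k))⁰) (R : Finset (𝓞 k))
      (D : Pl k → ℝ) (Y M : ℝ) (g : 𝓞 k → ℝ), 1 ≤ Y → (∀ v, η * Y ≤ D v ∧ D v ≤ Y / η) →
      RpI (f : Ideal (𝓞 k)) (Ideal.span {2} * ((A : Ideal (𝓞 k)) * (f : Ideal (𝓞 k)))) R →
      (∀ b ∈ (f : Ideal (𝓞 k)), ∀ z ∈ Ideal.span {2} * ((A : Ideal (𝓞 k)) * (f : Ideal (𝓞 k))),
        g (b + z) = g b) →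
      (∀ b ∈ (f : Ideal (𝓞 k)), ∀ z ∈ (h : Ideal (𝓞 k)) * (f : Ideal (𝓞 k)), g (b + z) = g b) →
      (∀ b ∈ (f : Ideal (𝓞 k)), |g b| ≤ M) →
      |∑ b ∈ R, g b * zf (A : Ideal (𝓞 k)) f (ev b) D -
        ct (A : Ideal (𝓞 k)) f D * ∑ b ∈ R, g b| ≤
        C * M * (nm (A : Ideal (𝓞 k)) + nm (f : Ideal (𝓞 k)) + Y) ^ j *
          Real.exp (-(c * (Y ^ ((dg k : ℝ) / 2) / (nm (f : Ideal (𝓞 k)) * nm (h : Ideal (𝓞 k)))) ^
            (1 / (dg k : ℝ))))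

end Pool.Agent.H61.NVK
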