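import Pool.Agent.H61.CM4B.AsmB1
import Pool.Agent.H65.CM4.AsmA
import Pool.Agent.H89.NV.Iface
import Pool.Agent.H1.NVE.EPC
import Pool.Agent.H1.NVE.KRE
import Pool.Agent.H1.NVE.LDU
import Pool.Agent.H1.NVE.LIX
import Pool.Agent.H1.NVE.POS
import Pool.Agent.H1.NVE.ZCB
import Pool.Agent.H25.NVE.FRI
import Pool.Agent.H25.NVE.PSF
import Pool.Agent.H27.NVE.DER
import Pool.Agent.H27.NVE.ZTH
import Pool.Agent.H32.NVE.LSB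
import Pool.Agent.H32.NVE.TBO
import Pool.Agent.H32.NVE.VCC
import Pool.Agent.H32.NVE.VKF
import Pool.Agent.H33.NVE.EPQ
import Pool.Agent.H33.NVE.T2E
import Pool.Agent.H34.NVE.ZPR
import Pool.Agent.H36.NVE.BSU
import Pool.Agent.H36.NVE.ZFE
import Pool.Agent.H38.NVE.EPS
import Pool.Agent.H38.NVE.REG
import Pool.Agent.H38.NVE.THA
import Pool.Agent.H42.NVE.PSH
import Pool.Agent.H45.NVE.FFE
import Pool.Agent.H45.NVE.SCL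
import Pool.Agent.H49.NVE.HOZ
import Pool.Agent.H51.NVE.BAI
import Pool.Agent.H60.NVE.HOV
import Pool.Agent.H61.NVE.EBD
import Pool.Agent.H63.NVE.Z0I
import Pool.Agent.H64.NVE.L0E
import Pool.Agent.H64.NVE.LND
import Pool.Agent.H64.NVE.QCX
import Pool.Agent.H64.NVE.VC0
import Pool.Agent.H73.NVE.BAV
import Pool.Agent.H78.NVE.SSB
import Pool.Agent.H82.NVE.CTE
import Pool.Agent.H82.NVE.LAM
import Pool.Agent.H96.NVE.SPL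
import Pool.Agent.H96.NVE.ZCX
import Pool.Agent.H98.NVE.AVC
import Pool.Agent.H98.NVE.PSI

/-!
# The assembly of the part E
-/

set_option autoImplicit false

open MeasureTheory Set Filter NumberField NumberField.InfinitePlace Pool.Agent.H65.CM4
  Pool.Agent.H61.CM4 Pool.Agent.H61.CM4B
open scoped Real

namespace Pool.Agent.H61.NVK

theorem e_LIX : T_LIX := Pool.Agent.H1.NVE_LIX.pf_LIX
theorem e_FRI : T_FRI := Pool.Agent.H25.NVE_FRI.pf_FRI e_LIX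
theorem e_LDU : T_LDU := Pool.Agent.H1.NVE_LDU.pf_LDU e_LIX e_FRI
theorem e_EPC : T_EPC := Pool.Agent.H1.NVE_EPC.pf_EPC e_LIX c_FOR
theorem e_EPQ : T_EPQ := Pool.Agent.H33.NVE_EPQ.pf_EPQ c_FOR
theorem e_KRE : T_KRE := Pool.Agent.H1.NVE_KRE.pf_KRE
theorem e_PSI : T_PSI := Pool.Agent.H98.NVE_PSI.pf_PSI c_IXD c_PHI e_LIX e_LDU e_EPC
theorem e_PSH : T_PSH :=
  Pool.Agent.H42.NVE_PSH.pf_PSH c_EZA c_SKC c_SHI e_KRE e_LIX c_IXD c_KSH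
theorem e_ZFE : T_ZFE := Pool.Agent.H36.NVE_ZFE.pf_ZFE e_LIX
theorem e_EPS : T_EPS := Pool.Agent.H38.NVE_EPS.pf_EPS c_EZA e_PSI e_PSH e_ZFE e_LIX c_IXD
theorem e_ZPR : T_ZPR := Pool.Agent.H34.NVE_ZPR.pf_ZPR e_EPQ
theorem e_LAM : T_LAM := Pool.Agent.H82.NVE_LAM.pf_LAM c_IXD c_WP2 c_ME2
theorem e_ZTH : T_ZTH :=
  Pool.Agent.H27.NVE_ZTH.pf_ZTH c_IXD c_PHI e_PSI e_PSH e_LAM e_LIX e_KRE
theorem e_POS : T_POS := Pool.Agent.H1.NVE_POS.pf_POS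
theorem e_PSF : T_PSF := Pool.Agent.H25.NVE_PSF.pf_PSF e_POS
theorem e_SPL : T_SPL := Pool.Agent.H96.NVE_SPL.pf_SPL e_PSF
theorem e_T2E : T_T2E := Pool.Agent.H33.NVE_T2E.pf_T2E e_FRI
theorem e_AVC : T_AVC := Pool.Agent.H98.NVE_AVC.pf_AVC e_FRI
theorem e_THA : T_THA := Pool.Agent.H38.NVE_THA.pf_THA e_SPL e_AVC e_FRI
theorem e_LSB : T_LSB := Pool.Agent.H32.NVE_LSB.pf_LSB
theorem e_TBO : T_TBO := Pool.Agent.H32.NVE_TBO.pf_TBO e_LSB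
theorem e_SSB : T_SSB := Pool.Agent.H78.NVE_SSB.pf_SSB e_TBO
theorem e_Z0I : T_Z0I := Pool.Agent.H63.NVE_Z0I.pf_Z0I Pool.Agent.H45.NVE_FFE.cTH
theorem e_FFE : T_FFE := Pool.Agent.H45.NVE_FFE.pf_FFE
theorem e_BAI : T_BAI :=
  Pool.Agent.H51.NVE_BAI.pf_BAI e_LAM e_T2E e_FRI e_LIX e_THA e_SSB e_Z0I e_FFE c_CT2
    (Pool.Agent.H87.HK.ct Pool.Agent.H45.NVE_FFE.cTH)
theorem e_L0E : T_L0E := Pool.Agent.H64.NVE_L0E.pf_L0E e_Z0I e_FFE e_FRI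
theorem e_SCL : T_SCL := Pool.Agent.H45.NVE_SCL.pf_SCL e_FFE e_FRI
theorem e_REG : T_REG := Pool.Agent.H38.NVE_REG.pf_REG
theorem e_CTE : T_CTE := Pool.Agent.H82.NVE_CTE.pf_CTE c_IXD e_LIX e_FRI e_L0E e_SCL e_REG
theorem e_BAV : T_BAV := Pool.Agent.H73.NVE_BAV.pf_BAV e_ZFE e_ZTH e_BAI e_CTE e_LIX
theorem e_BSU : T_BSU := Pool.Agent.H36.NVE_BSU.pf_BSU e_BAV e_LIX e_ZPR
theorem e_VC0 : T_VC0 := Pool.Agent.H64.NVE_VC0.pf_VC0 c_GGB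
theorem e_VCC : T_VCC := Pool.Agent.H32.NVE_VCC.pf_VCC c_IXD c_KCB c_KCD e_KRE e_VC0
theorem e_VKF : T_VKF := Pool.Agent.H32.NVE_VKF.pf_VKF e_VCC
theorem e_EBD : T_EBD :=
  Pool.Agent.H61.NVE_EBD.pf_EBD e_LSB c_FOR (fun k _ _ _ => a_EMB k) (fun k _ _ _ => a_BAL k)
theorem e_QCX : T_QCX := Pool.Agent.H64.NVE_QCX.pf_QCX c_IXD
theorem e_ZCX : T_ZCX :=
  Pool.Agent.H96.NVE_ZCX.pf_ZCX c_IXD c_KCB c_KCD e_KRE c_EZA e_LIX e_ZFE e_EBD e_QCX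
theorem e_ZCB : T_ZCB := Pool.Agent.H1.NVE_ZCB.pf_ZCB e_ZCX
theorem e_HOZ : T_HOZ := Pool.Agent.H49.NVE_HOZ.pf_HOZ c_IXD e_ZCX
theorem e_HOV : T_HOV := Pool.Agent.H60.NVE_HOV.pf_HOV c_IXD e_VCC
theorem e_LND : T_LND := Pool.Agent.H64.NVE_LND.pf_LND
theorem e_DER : T_DER := Pool.Agent.H27.NVE_DER.pf_DER e_HOZ e_HOV e_LND e_LIX

/-- the interface statement on the Epstein zeta function -/
theorem i_EPS (k : Type) [Field k] [NumberField k] [IsTotallyReal k] :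
    Pool.Agent.H89.NV.T_EPS k :=
  fun A f β d hf hA hd => e_EPS k A f β d hf hA hd

end Pool.Agent.H61.NVK
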