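import Pool.Agent.H61.NVK.Base
import Pool.Agent.H61.CM4.TargetsB

/-!
# NVK, part E, first group: lattices, the functional equation, the central value

Targets of the board `nvk_modules`, rows `E_...` (captain helper61).
-/

set_option autoImplicit false

open MeasureTheory Set Filter NumberField NumberField.InfinitePlace
open scoped Real nonZeroDivisors

namespace Pool.Agent.H61.NVK

open Pool.Agent.H65.CM4 Pool.Agent.H61.CM4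

section

variable {k : Type} [Field k] [NumberField k] [IsTotallyReal k]

open Classical in
/-- the central value of the Epstein zeta functions of the lattices `a B × a` at the point `x + i y`,
all classes together -/
noncomputable def ze (B : Ideal (𝓞 k)) (x y : Pl k → ℝ) : ℝ :=
  ∑ c : ClassGroup (𝓞 k), ∑' u : V2 k, if u ∈ Lb (ci c) B ∧ u ∈ Fo k then
    2 * Vk k (qp x y u / ix (Lb (ci c) B)) / Real.sqrt (qp x y u / ix (Lb (ci c) B)) else 0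

/-- the embedding vector of an element -/
noncomputable def ev (b : 𝓞 k) : Pl k → ℝ := fun v => rv v (b : k)

/-- `R` represents `I` modulo `J` -/
structure RpI (I J : Ideal (𝓞 k)) (R : Finset (𝓞 k)) : Prop where
  le : J ≤ I
  mem : ∀ r ∈ R, r ∈ I
  ex : ∀ x ∈ I, ∃ r ∈ R, x - r ∈ J
  uniq : ∀ r ∈ R, ∀ r' ∈ R, r - r' ∈ J → r = r'

end

/-! ### Lattices -/

/-- (LIX) the index of the lattice. -/
def T_LIX : Prop :=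
  ∀ (k : Type) [Field k] [NumberField k] [IsTotallyReal k] (a B : (Ideal (𝓞 k))⁰),
    (ix (Lb (a : Ideal (𝓞 k)) B) : ℝ) = nm (a : Ideal (𝓞 k)) ^ 2 * nm (B : Ideal (𝓞 k)) ∧
    ix (Lb (a : Ideal (𝓞 k)) B) ≠ 0 ∧ 1 ≤ nm (a : Ideal (𝓞 k)) ∧ 1 ≤ nm (B : Ideal (𝓞 k))

/-- (LDU) the dual lattice. -/
def T_LDU : Prop :=
  ∀ (k : Type) [Field k] [NumberField k] [IsTotallyReal k], ∃ κ : ClassGroup (𝓞 k),
    ∀ a B : (Ideal (𝓞 k))⁰, ∃ a' : (Ideal (𝓞 k))⁰,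
      du (Lb (a : Ideal (𝓞 k)) B) = Lb (a' : Ideal (𝓞 k)) B ∧
      ClassGroup.mk0 a' = κ * (ClassGroup.mk0 a * ClassGroup.mk0 B)⁻¹ ∧
      (dk k : ℝ) ^ 2 * ix (Lb (a : Ideal (𝓞 k)) B) * ix (Lb (a' : Ideal (𝓞 k)) B) =
        (Dm (Lb (a : Ideal (𝓞 k)) B) : ℝ) ^ (2 * dg k)

/-- (EPC) only the class of the ideal `a` matters. -/
def T_EPC : Prop :=
  ∀ (k : Type) [Field k] [NumberField k] [IsTotallyReal k] (a a' B : (Ideal (𝓞 k))⁰),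
    ClassGroup.mk0 a = ClassGroup.mk0 a' →
    ∃ e : {u : V2 k // u ∈ Lb (a : Ideal (𝓞 k)) B ∧ u ∈ Fo k} ≃
        {u : V2 k // u ∈ Lb (a' : Ideal (𝓞 k)) B ∧ u ∈ Fo k},
      ∀ (x y : Pl k → ℝ) (u : {u : V2 k // u ∈ Lb (a : Ideal (𝓞 k)) B ∧ u ∈ Fo k}),
        qp x y (e u : V2 k) / ix (Lb (a' : Ideal (𝓞 k)) B) =
          qp x y (u : V2 k) / ix (Lb (a : Ideal (𝓞 k)) B)

/-- (EPQ) a linear change of the vector. -/
def T_EPQ : Prop :=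
  ∀ (k : Type) [Field k] [NumberField k] [IsTotallyReal k] (a B : (Ideal (𝓞 k))⁰) (r : 𝓞 k)
    (ε : (𝓞 k)ˣ), r ∈ (B : Ideal (𝓞 k)) →
    ∃ e : {u : V2 k // u ∈ Lb (a : Ideal (𝓞 k)) B ∧ u ∈ Fo k} ≃
        {u : V2 k // u ∈ Lb (a : Ideal (𝓞 k)) B ∧ u ∈ Fo k},
      ∀ (b D : Pl k → ℝ) (u : {u : V2 k // u ∈ Lb (a : Ideal (𝓞 k)) B ∧ u ∈ Fo k}),
        qd b D (e u : V2 k) = qd (fun v => rv v ((ε : 𝓞 k) : k) * b v + 2 * rv v (r : k))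
          (fun v => rv v ((ε : 𝓞 k) : k) ^ 2 * D v) (u : V2 k)

/-! ### The kernel -/

/-- (KRE) the kernel is real on the real line. -/
def T_KRE : Prop :=
  (gG (1 / 2) = ((-(1 / (4 * Real.sqrt 2)) : ℝ) : ℂ)) ∧
  (∀ (n : ℕ) (x : ℝ), 0 < x → (Kc n (1 / 2) (x : ℂ)).im = 0) ∧
  ∀ (k : Type) [Field k] [NumberField k] (x : ℝ), 0 < x → 0 < dk k →
    ((Vk k x : ℝ) : ℂ) = ((Real.sqrt (x / dk k) : ℝ) : ℂ) *
      (Kc (dg k) (1 / 2) ((x / dk k : ℝ) : ℂ) / gG (1 / 2) ^ dg k)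

/-! ### The functional equation of the sum over the classes -/

/-- (PSI) the completed function. -/
def T_PSI : Prop :=
  ∀ (k : Type) [Field k] [NumberField k] [IsTotallyReal k] (B : (Ideal (𝓞 k))⁰)
    (x y : Pl k → ℝ), (∀ v, 0 < y v) → ∃ Ψ : ℂ → ℂ, Differentiable ℂ Ψ ∧
      (∀ b : ℝ, ∃ (C : ℝ) (j : ℕ), ∀ s : ℂ, |s.re| ≤ b → ‖Ψ s‖ ≤ C * (1 + |s.im|) ^ j) ∧
      (∀ s : ℂ, Ψ (1 - s) = Ψ s) ∧
      (∀ s : ℂ, 1 < s.re → Ψ s = gG s ^ dg k * (dk k : ℂ) ^ s *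
        ∑ c : ClassGroup (𝓞 k), Zd (Lb (ci c) B) x y (ix (Lb (ci c) B) : ℝ)⁻¹ s)

/-- (PSH) the value at `1 / 2`. -/
def T_PSH : Prop :=
  ∀ (k : Type) [Field k] [NumberField k] [IsTotallyReal k] (B : (Ideal (𝓞 k))⁰)
    (x y : Pl k → ℝ) (Ψ : ℂ → ℂ), (∀ v, 0 < y v) → Differentiable ℂ Ψ →
      (∀ b : ℝ, ∃ (C : ℝ) (j : ℕ), ∀ s : ℂ, |s.re| ≤ b → ‖Ψ s‖ ≤ C * (1 + |s.im|) ^ j) →
      (∀ s : ℂ, Ψ (1 - s) = Ψ s) →
      (∀ s : ℂ, 1 < s.re → Ψ s = gG s ^ dg k * (dk k : ℂ) ^ s *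
        ∑ c : ClassGroup (𝓞 k), Zd (Lb (ci c) B) x y (ix (Lb (ci c) B) : ℝ)⁻¹ s) →
      Ψ (1 / 2) = gG (1 / 2) ^ dg k * (dk k : ℂ) ^ (1 / 2 : ℂ) * ((ze (B : Ideal (𝓞 k)) x y : ℝ) : ℂ)

/-- (ZFE) the two normalisations. -/
def T_ZFE : Prop :=
  ∀ (k : Type) [Field k] [NumberField k] [IsTotallyReal k] (a A f : (Ideal (𝓞 k))⁰)
    (b D : Pl k → ℝ), (∀ v, 0 < D v) →
    0 < sD D ∧
    (∀ u : V2 k, nf (a : Ideal (𝓞 k)) A f b D u * nm (f : Ideal (𝓞 k)) / sD D =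
      qp (fun v => b v / 2) (fun v => Real.sqrt (D v) / 2) u /
        ix (Lb (a : Ideal (𝓞 k)) ((A : Ideal (𝓞 k)) * (f : Ideal (𝓞 k))))) ∧
    (∀ u : V2 k, u ≠ 0 → 0 < nf (a : Ideal (𝓞 k)) A f b D u) ∧
    zf (A : Ideal (𝓞 k)) f b D = Real.sqrt (nm (f : Ideal (𝓞 k))) / Real.sqrt (sD D) *
      ze ((A : Ideal (𝓞 k)) * (f : Ideal (𝓞 k))) (fun v => b v / 2) (fun v => Real.sqrt (D v) / 2)

open Classical in
/-- (EPS) the Epstein zeta function and its central value. -/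
def T_EPS : Prop :=
  ∀ (k : Type) [Field k] [NumberField k] [IsTotallyReal k] (A f : Ideal (𝓞 k))
    (β d : Pl k → ℝ), f ≠ ⊥ → A ≠ ⊥ → (∀ v, 0 < d v) →
    (∀ (a : Ideal (𝓞 k)) (u : V2 k), a ≠ ⊥ → u ≠ 0 → 0 < nf a A f β d u) ∧
    ∃ F : ℂ → ℂ, DifferentiableOn ℂ F {1}ᶜ ∧
      (∀ s : ℂ, 1 < s.re → HasSum (fun p : ClassGroup (𝓞 k) × V2 k =>
        if p.2 ∈ Lb (ci p.1) (A * f) ∧ p.2 ∈ Fo k then
          ((nf (ci p.1) A f β d p.2 : ℝ) : ℂ) ^ (-s) else 0) (F s)) ∧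
      F (1 / 2) = ((zf A f β d : ℝ) : ℂ)

/-- (ZPR) translations and units. -/
def T_ZPR : Prop :=
  ∀ (k : Type) [Field k] [NumberField k] [IsTotallyReal k] (A f : (Ideal (𝓞 k))⁰)
    (b D : Pl k → ℝ) (r : 𝓞 k) (ε : (𝓞 k)ˣ), (∀ v, 0 < D v) →
    r ∈ (A : Ideal (𝓞 k)) * (f : Ideal (𝓞 k)) →
    zf (A : Ideal (𝓞 k)) f (fun v => rv v ((ε : 𝓞 k) : k) * b v + 2 * rv v (r : k))
      (fun v => rv v ((ε : 𝓞 k) : k) ^ 2 * D v) = zf (A : Ideal (𝓞 k)) f b D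

end Pool.Agent.H61.NVK
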